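import Pool.Agent.Helper11.Fam.LSTA
import Pool.Agent.Helper20.Fam.WORB
import Pool.Agent.Helper22.Fam.ALPH
import Pool.Agent.Helper24.Fam.RED
import Pool.Agent.Helper28.Fam.ISO
import Pool.Agent.Helper34.Fam.ORB
import Pool.Agent.Helper35.Fam.UP
import Pool.Agent.Helper41.Fam.COV
import Pool.Agent.Helper41.Fam.PT
import Pool.Agent.Helper45.Fam.CONE
import Pool.Agent.Helper45.Fam.TANG
import Pool.Agent.Helper45.Fam.TSUM
import Pool.Agent.Helper53.Fam.LATT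
import Pool.Agent.Helper57.Fam.FIN
import Pool.Agent.Helper59.Fam.TREE
import Pool.Agent.Helper60.Fam.EXCH
import Pool.Agent.Helper60.Fam.UPC
import Pool.Agent.Helper74.Fam.GET
import Pool.Agent.Helper74.Fam.PSF
import Pool.Agent.Helper74.Fam.UPV
import Pool.Agent.Helper77.Fam.LSTB
import Pool.Agent.Helper78.Fam.WGT
import Pool.Agent.Helper86.Fam.LOW
import Pool.Agent.Helper89.Fam.COMP
import Pool.Agent.Helper91.Fam.LSTC

set_option autoImplicit false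

/-!
# All modules together: the main theorem for one lattice
-/

namespace Pool.Agent.Helper10.Fam

theorem a_LSTA : ST_LSTA := st_LSTA

theorem a_LSTB : ST_LSTB :=
  ⟨st_LSTB2.beqL, st_LSTB2.memL, st_LSTB2.nodupL, st_LSTB2.comb, st_LSTB2.smulEq, st_LSTB2.leK,
    st_LSTB2.isUnit⟩

theorem a_LSTC : ST_LSTC := st_LSTC a_LSTA

theorem a_EXCH : ST_EXCH := st_EXCH

theorem a_TREE : ST_TREE := st_TREE a_EXCH a_LSTB

theorem a_INIT : ST_INIT := lstb_st_INIT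

theorem a_GET : ST_GET := st_GET

theorem a_CONE : ST_CONE := st_CONE a_LSTA a_LSTC

theorem a_TANG : ST_TANG := st_TANG

theorem a_TSUM : ST_TSUM := st_TSUM a_TANG a_LSTA

theorem a_LOW : ST_LOW := st_LOW a_LSTA a_LSTB a_LSTC a_TREE a_INIT a_GET a_CONE a_TANG a_TSUM

theorem a_UPC : ST_UPC := st_UPC a_LSTA a_LSTC

theorem a_UPV : ST_UPV := st_UPV a_LSTA a_LSTC

theorem a_ISO : ST_ISO := st_ISO a_LSTA a_LSTC

theorem a_UP : ST_UP := st_UP a_LSTA a_LSTB a_LSTC a_TREE a_INIT a_GET a_CONE a_UPC a_UPV a_ISO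

theorem a_ALPH : ST_ALPH := st_ALPH

theorem a_LATT : ST_LATT := st_LATT a_ALPH

theorem a_PT : ST_PT := st_PT a_LSTA a_LSTC a_ALPH

theorem a_RED : ST_RED := st_RED a_ALPH a_LATT

theorem a_COV : ST_COV := st_COV a_LSTC a_ALPH a_PT a_RED

theorem a_ORB : ST_ORB := st_ORB a_LSTA a_LSTC a_ALPH a_LATT

theorem a_WORB : ST_WORB := st_WORB a_LSTB a_ALPH a_ORB

theorem a_COMP : ST_COMP := st_COMP a_LSTA a_LSTB a_LSTC a_ALPH a_PT a_ORB

theorem a_PSF : ST_PSF := st_PSF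

theorem a_WGT : ST_WGT := fun D β CL CU Ex hβ G κ δ hκ hδ h =>
  st_WGT' a_LSTB a_ALPH a_PT a_RED a_WORB a_COMP a_PSF a_LOW a_UP D β CL CU Ex hβ G G.mn κ δ
    hκ hδ h

theorem a_FIN : ST_FIN := st_FIN a_LATT a_COV a_WGT

end Pool.Agent.Helper10.Fam
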