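import Pool.Agent.Helper10.FamA.Goods
import Pool.Agent.Helper10.FamP.Main
import Pool.Agent.Helper74.Fam.B8
import Pool.Agent.Helper74.Fam.ISO8
import Pool.Agent.Helper97.Fam.TRW

set_option autoImplicit false
set_option maxRecDepth 100000

/-!
# The family theorem
-/

namespace Pool.Agent.Helper10.FamP

open MeasureTheory
open Pool.Agent.Helper10
open scoped ENNReal

theorem inner_be {n : ℕ} (β : Fin n → Fin n → ℝ) (i j : Fin n) :
    inner ℝ (be β i) (be β j) = dot (β i) (β j) := (dot_inner (be β i) (be β j)).symm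

theorem fam_one (D : Fam.Dat) (CL : Fam.LowCert) (CU : Fam.UpCert) (Ex : List (List ℕ))
    (good : Fam.Good D CL CU Ex) (C : Matrix (Fin D.n) (Fin D.n) ℤ)
    (gram : ∀ i j : Fin D.n, C i j = if i = j then (2 : ℤ) else -(Fam.ent D.G i j : ℤ))
    (κ : ℕ) (hκ0 : 0 < κ)
    (hκ : (κ : ℝ) * ((CU.Mn : ℝ) / 1000) ≤ 39478 / 1000 * ((CL.m0 : ℝ) / 1000000))
    (β : Fin D.n → Fin D.n → ℝ) (hβ : ∀ i j, dot (β i) (β j) = (C i j : ℝ)) (δ : ℝ)
    (hδ : 0 < δ) : LorStmt (LL β) δ (κ * δ) := by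
  have hB : Fam.IsBase D (be β) := by
    intro i j
    rw [inner_be, hβ, gram]
    split_ifs <;> push_cast <;> rfl
  exact Fam.a_FIN D (be β) CL CU Ex hB good κ δ (by exact_mod_cast hκ0) hδ hκ

/-- scaling of the weights -/
theorem scale {n : ℕ} {L : AddSubgroup (Lor.E n)} {ψ : ℝ → ℝ} {μ M rho : ℝ}
    (h : Lor.AWeights L ψ μ M rho) {t : ℝ} (ht : 0 ≤ t) :
    Lor.AWeights L ψ (t * μ) M (t * rho) where
  hψ := h.hψ
  hψ0 := h.hψ0
  hμ := mul_nonneg ht h.hμ
  hnuM := h.hnuM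
  up := h.up
  low := fun p hp => by
    have h1 := h.low p hp
    calc ENNReal.ofReal (t * rho * M) = ENNReal.ofReal t * ENNReal.ofReal (rho * M) := by
          rw [← ENNReal.ofReal_mul ht, mul_assoc]
      _ ≤ ENNReal.ofReal t * ∑' w : Lor.Orb L,
          ENNReal.ofReal (μ * (1 / Lor.uval w p) ^ 2 * ψ (1 / Lor.uval w p)) := by gcongr
      _ = ∑' w : Lor.Orb L, ENNReal.ofReal t *
          ENNReal.ofReal (μ * (1 / Lor.uval w p) ^ 2 * ψ (1 / Lor.uval w p)) :=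
          ENNReal.tsum_mul_left.symm
      _ = _ := by
          refine tsum_congr fun w => ?_
          rw [← ENNReal.ofReal_mul ht]
          congr 1
          ring

/-- lattice data for `E₈` -/
def datE8 : Fam.Dat := ⟨8, [[0,0,1,0,0,0,0,0,0,0], [0,0,0,1,0,0,0,0,0,0],
  [1,0,0,1,0,0,0,0,0,0], [0,1,1,0,1,0,0,0,0,0], [0,0,0,1,0,1,0,0,0,0], [0,0,0,0,1,0,1,0,0,0],
  [0,0,0,0,0,1,0,1,0,0], [0,0,0,0,0,0,1,0,1,0], [0,0,0,0,0,0,0,1,0,1], [0,0,0,0,0,0,0,0,1,0]],
  [[4,7,9,14,12,10,8,6,4,2], [7,10,14,21,18,15,12,9,6,3], [9,14,18,28,24,20,16,12,8,4],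
  [14,21,28,42,36,30,24,18,12,6], [12,18,24,36,30,25,20,15,10,5], [10,15,20,30,25,20,16,12,8,4],
  [8,12,16,24,20,16,12,9,6,3], [6,9,12,18,15,12,9,6,4,2], [4,6,8,12,10,8,6,4,2,1],
  [2,3,4,6,5,4,3,2,1,0]], 1, [2,3,4,6,5,4,3,2,1,0], 0, []⟩

theorem dok_E8 : Fam.DOK datE8 where
  npos := by decide
  dpos := by decide
  lenG := by decide
  lenG' := by decide
  lenH := by decide
  lenH' := by decide
  lenw := by decide
  symG := by decide +kernel
  symH := by decide +kernel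
  mat := by decide +kernel
  posH := by decide +kernel
  zeroH := by decide
  diagG := by decide +kernel
  aff := by decide
  aff0 := by decide +kernel
  w0a := by decide
  w0b := by decide
  w0pos := by decide +kernel
  null := by decide +kernel

theorem gram_E8 : ∀ i j : Fin 8,
    CartanMatrix.E₈ i j = if i = j then (2 : ℤ) else -(Fam.ent datE8.G i j : ℤ) := by
  intro i j; fin_cases i <;> fin_cases j <;> rfl

theorem fam_E8 (β : Fin 8 → Fin 8 → ℝ)
    (hβ : ∀ i j, dot (β i) (β j) = (CartanMatrix.E₈ i j : ℝ)) (δ : ℝ) (hδ : 0 < δ) :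
    LorStmt (LL β) δ (((32 : ℕ) : ℝ) * δ) := by
  have hi : ∀ i j : Fin 8, inner ℝ (be β i) (be β j) = (CartanMatrix.E₈ i j : ℝ) := by
    intro i j
    rw [inner_be, hβ]
  have hB' : ∀ i j : Fin 8, inner ℝ (be β i) (be β j)
      = if i = j then (2 : ℝ) else -(Fam.ent datE8.G i j : ℝ) := by
    intro i j
    rw [hi, gram_E8 i j]
    split_ifs <;> push_cast <;> rfl
  have hB : Fam.IsBase datE8 (be β) := hB'
  obtain ⟨φ, hφ⟩ := Fam.st_ISO8 Fam.st_B8.1 (be β) hi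
  have hL : ∀ x, φ x ∈ LL β ↔ x ∈ Lor.E8 := by
    intro x
    rw [← Fam.st_B8.2]
    unfold LL
    rw [mem_latOf, mem_latOf]
    constructor
    · rintro ⟨m, hm⟩
      refine ⟨m, φ.injective ?_⟩
      rw [hm, map_sum]
      refine Finset.sum_congr rfl fun i _ => ?_
      rw [map_smul, hφ]
    · rintro ⟨m, hm⟩
      refine ⟨m, ?_⟩
      rw [hm, map_sum]
      refine Finset.sum_congr rfl fun i _ => ?_
      rw [map_smul, hφ]
  have hw : Lor.AWeights (LL β) Lor.psi2 (39478 / 1000 * δ) (1171 / 1000) (32 * δ) := by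
    have h1 := scale Lor.weights_E8 (t := 2 * δ) (by positivity)
    have h2 := Fam.st_TRW.wts 8 Lor.E8 (LL β) φ hL _ _ _ _ h1
    have e1 : 2 * δ * (19739 / 1000) = 39478 / 1000 * δ := by ring
    have e2 : 2 * δ * 16 = 32 * δ := by ring
    rwa [e1, e2] at h2
  have hcov := Fam.st_TRW.cov 8 Lor.E8 (LL β) φ hL 3 1 Lor.covers_E8
  have hev : Lor.EvenLat (LL β) (be β) := Fam.a_LATT.even datE8 (be β) dok_E8 hB
  intro Δ hfi f hf hinv hbdd lam heig hcusp hne
  obtain ⟨l, hl, hl2⟩ := Lor.main (by norm_num) hev one_pos hcov (by positivity) hw hδ (by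
    have h1 := Real.pi_gt_d6
    have h2 : (39478 : ℝ) / 1000 ≤ 4 * Real.pi ^ 2 := by nlinarith
    exact mul_le_mul_of_nonneg_right h2 hδ.le) Δ hfi f hf hinv hbdd lam heig hcusp hne
  exact ⟨l, by push_cast; exact hl, hl2⟩

theorem family : ∀ R ∈ table, ∀ β : Fin R.n → Fin R.n → ℝ,
    (∀ i j, dot (β i) (β j) = (R.C i j : ℝ)) → ∀ δ : ℝ, 0 < δ → LorStmt (LL β) δ (R.kap * δ) := by
  intro R hR
  unfold table at hR
  rcases List.mem_cons.1 hR with rfl | hR
  · exact fam_one Fam.A3.dat Fam.A3.low Fam.A3.up Fam.A3.ex Fam.good_A3 _ Fam.gram_A3 37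
      (by norm_num) (by norm_num [Fam.A3.low, Fam.A3.up])
  rcases List.mem_cons.1 hR with rfl | hR
  · exact fam_one Fam.A4.dat Fam.A4.low Fam.A4.up Fam.A4.ex Fam.good_A4 _ Fam.gram_A4 29
      (by norm_num) (by norm_num [Fam.A4.low, Fam.A4.up])
  rcases List.mem_cons.1 hR with rfl | hR
  · exact fam_one Fam.A5.dat Fam.A5.low Fam.A5.up Fam.A5.ex Fam.good_A5 _ Fam.gram_A5 18
      (by norm_num) (by norm_num [Fam.A5.low, Fam.A5.up])
  rcases List.mem_cons.1 hR with rfl | hR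
  · exact fam_one Fam.D5.dat Fam.D5.low Fam.D5.up Fam.D5.ex Fam.good_D5 _ Fam.gram_D5 26
      (by norm_num) (by norm_num [Fam.D5.low, Fam.D5.up])
  rcases List.mem_cons.1 hR with rfl | hR
  · exact fam_one Fam.D6.dat Fam.D6.low Fam.D6.up Fam.D6.ex Fam.good_D6 _ Fam.gram_D6 18
      (by norm_num) (by norm_num [Fam.D6.low, Fam.D6.up])
  rcases List.mem_cons.1 hR with rfl | hR
  · exact fam_one Fam.E6.dat Fam.E6.low Fam.E6.up Fam.E6.ex Fam.good_E6 _ Fam.gram_E6 24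
      (by norm_num) (by norm_num [Fam.E6.low, Fam.E6.up])
  rcases List.mem_cons.1 hR with rfl | hR
  · exact fam_one Fam.E7.dat Fam.E7.low Fam.E7.up Fam.E7.ex Fam.good_E7 _ Fam.gram_E7 17
      (by norm_num) (by norm_num [Fam.E7.low, Fam.E7.up])
  rcases List.mem_cons.1 hR with rfl | hR
  · exact fam_E8
  · simp at hR

end Pool.Agent.Helper10.FamP
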