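import Pool.Agent.Helper10.FamD.A3Low
import Pool.Agent.Helper10.FamD.A3Up
import Pool.Agent.Helper10.FamD.A4Low
import Pool.Agent.Helper10.FamD.A4Up
import Pool.Agent.Helper10.FamD.A5Low
import Pool.Agent.Helper10.FamD.A5Up
import Pool.Agent.Helper10.FamD.D5Low
import Pool.Agent.Helper10.FamD.D5Up
import Pool.Agent.Helper10.FamD.D6Low
import Pool.Agent.Helper10.FamD.D6Up
import Pool.Agent.Helper10.FamD.E6Low
import Pool.Agent.Helper10.FamD.E6Up
import Pool.Agent.Helper10.FamD.E7Low
import Pool.Agent.Helper10.FamD.E7Up
import Pool.Agent.Helper10.Fam.FastS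
import Pool.Agent.Helper10.FamA.All

set_option autoImplicit false
set_option maxRecDepth 100000

/-!
# The certificates are good
-/

namespace Pool.Agent.Helper10.Fam

open Pool.Agent.Helper10.Lor

theorem dok_A3 : DOK A3.dat where
  npos := by decide
  dpos := by decide
  lenG := by decide
  lenG' := by decide
  lenH := by decide
  lenH' := by decide
  lenw := by decide
  symG := by decide +kernel
  symH := by decide +kernel
  mat := by decide +kernel
  posH := by decide +kernel
  zeroH := by decide
  diagG := by decide +kernel
  aff := by decide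
  aff0 := by decide +kernel
  w0a := by decide
  w0b := by decide
  w0pos := by decide +kernel
  null := by decide +kernel

theorem good_A3 : Good A3.dat A3.low A3.up A3.ex where
  dok := dok_A3
  cusps := fast_ok A3.cusps_fast
  low1 := A3.low1_ok
  low2 := A3.low2_ok
  low3 := A3.low3_ok
  up1 := A3.up1_ok
  up2 := A3.up2_ok
  up3 := A3.up3_ok
  mn := by decide

theorem gram_A3 : ∀ i j : Fin 3,
    CartanMatrix.A 3 i j = if i = j then (2 : ℤ) else -(ent A3.dat.G i j : ℤ) := by
  intro i j; fin_cases i <;> fin_cases j <;> rfl

theorem dok_A4 : DOK A4.dat where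
  npos := by decide
  dpos := by decide
  lenG := by decide
  lenG' := by decide
  lenH := by decide
  lenH' := by decide
  lenw := by decide
  symG := by decide +kernel
  symH := by decide +kernel
  mat := by decide +kernel
  posH := by decide +kernel
  zeroH := by decide
  diagG := by decide +kernel
  aff := by decide
  aff0 := by decide +kernel
  w0a := by decide
  w0b := by decide
  w0pos := by decide +kernel
  null := by decide +kernel

theorem good_A4 : Good A4.dat A4.low A4.up A4.ex where
  dok := dok_A4
  cusps := fast_ok A4.cusps_fast
  low1 := A4.low1_ok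
  low2 := A4.low2_ok
  low3 := A4.low3_ok
  up1 := A4.up1_ok
  up2 := A4.up2_ok
  up3 := A4.up3_ok
  mn := by decide

theorem gram_A4 : ∀ i j : Fin 4,
    CartanMatrix.A 4 i j = if i = j then (2 : ℤ) else -(ent A4.dat.G i j : ℤ) := by
  intro i j; fin_cases i <;> fin_cases j <;> rfl

theorem dok_A5 : DOK A5.dat where
  npos := by decide
  dpos := by decide
  lenG := by decide
  lenG' := by decide
  lenH := by decide
  lenH' := by decide
  lenw := by decide
  symG := by decide +kernel
  symH := by decide +kernel
  mat := by decide +kernel
  posH := by decide +kernel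
  zeroH := by decide
  diagG := by decide +kernel
  aff := by decide
  aff0 := by decide +kernel
  w0a := by decide
  w0b := by decide
  w0pos := by decide +kernel
  null := by decide +kernel

theorem good_A5 : Good A5.dat A5.low A5.up A5.ex where
  dok := dok_A5
  cusps := fast_ok A5.cusps_fast
  low1 := A5.low1_ok
  low2 := A5.low2_ok
  low3 := A5.low3_ok
  up1 := A5.up1_ok
  up2 := A5.up2_ok
  up3 := A5.up3_ok
  mn := by decide

theorem gram_A5 : ∀ i j : Fin 5,
    CartanMatrix.A 5 i j = if i = j then (2 : ℤ) else -(ent A5.dat.G i j : ℤ) := by
  intro i j; fin_cases i <;> fin_cases j <;> rfl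

theorem dok_D5 : DOK D5.dat where
  npos := by decide
  dpos := by decide
  lenG := by decide
  lenG' := by decide
  lenH := by decide
  lenH' := by decide
  lenw := by decide
  symG := by decide +kernel
  symH := by decide +kernel
  mat := by decide +kernel
  posH := by decide +kernel
  zeroH := by decide
  diagG := by decide +kernel
  aff := by decide
  aff0 := by decide +kernel
  w0a := by decide
  w0b := by decide
  w0pos := by decide +kernel
  null := by decide +kernel

theorem good_D5 : Good D5.dat D5.low D5.up D5.ex where
  dok := dok_D5
  cusps := fast_ok D5.cusps_fast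
  low1 := D5.low1_ok
  low2 := D5.low2_ok
  low3 := D5.low3_ok
  up1 := D5.up1_ok
  up2 := D5.up2_ok
  up3 := D5.up3_ok
  mn := by decide

theorem gram_D5 : ∀ i j : Fin 5,
    CartanMatrix.D 5 i j = if i = j then (2 : ℤ) else -(ent D5.dat.G i j : ℤ) := by
  intro i j; fin_cases i <;> fin_cases j <;> rfl

theorem dok_D6 : DOK D6.dat where
  npos := by decide
  dpos := by decide
  lenG := by decide
  lenG' := by decide
  lenH := by decide
  lenH' := by decide
  lenw := by decide
  symG := by decide +kernel
  symH := by decide +kernel
  mat := by decide +kernel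
  posH := by decide +kernel
  zeroH := by decide
  diagG := by decide +kernel
  aff := by decide
  aff0 := by decide +kernel
  w0a := by decide
  w0b := by decide
  w0pos := by decide +kernel
  null := by decide +kernel

theorem good_D6 : Good D6.dat D6.low D6.up D6.ex where
  dok := dok_D6
  cusps := fast_ok D6.cusps_fast
  low1 := D6.low1_ok
  low2 := D6.low2_ok
  low3 := D6.low3_ok
  up1 := D6.up1_ok
  up2 := D6.up2_ok
  up3 := D6.up3_ok
  mn := by decide

theorem gram_D6 : ∀ i j : Fin 6,
    CartanMatrix.D 6 i j = if i = j then (2 : ℤ) else -(ent D6.dat.G i j : ℤ) := by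
  intro i j; fin_cases i <;> fin_cases j <;> rfl

theorem dok_E6 : DOK E6.dat where
  npos := by decide
  dpos := by decide
  lenG := by decide
  lenG' := by decide
  lenH := by decide
  lenH' := by decide
  lenw := by decide
  symG := by decide +kernel
  symH := by decide +kernel
  mat := by decide +kernel
  posH := by decide +kernel
  zeroH := by decide
  diagG := by decide +kernel
  aff := by decide
  aff0 := by decide +kernel
  w0a := by decide
  w0b := by decide
  w0pos := by decide +kernel
  null := by decide +kernel

theorem good_E6 : Good E6.dat E6.low E6.up E6.ex where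
  dok := dok_E6
  cusps := fast_ok E6.cusps_fast
  low1 := E6.low1_ok
  low2 := E6.low2_ok
  low3 := E6.low3_ok
  up1 := E6.up1_ok
  up2 := E6.up2_ok
  up3 := E6.up3_ok
  mn := by decide

theorem gram_E6 : ∀ i j : Fin 6,
    CartanMatrix.E₆ i j = if i = j then (2 : ℤ) else -(ent E6.dat.G i j : ℤ) := by
  intro i j; fin_cases i <;> fin_cases j <;> rfl

theorem dok_E7 : DOK E7.dat where
  npos := by decide
  dpos := by decide
  lenG := by decide
  lenG' := by decide
  lenH := by decide
  lenH' := by decide
  lenw := by decide
  symG := by decide +kernel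
  symH := by decide +kernel
  mat := by decide +kernel
  posH := by decide +kernel
  zeroH := by decide
  diagG := by decide +kernel
  aff := by decide
  aff0 := by decide +kernel
  w0a := by decide
  w0b := by decide
  w0pos := by decide +kernel
  null := by decide +kernel

theorem good_E7 : Good E7.dat E7.low E7.up E7.ex where
  dok := dok_E7
  cusps := fast_ok E7.cusps_fast
  low1 := E7.low1_ok
  low2 := E7.low2_ok
  low3 := E7.low3_ok
  up1 := E7.up1_ok
  up2 := E7.up2_ok
  up3 := E7.up3_ok
  mn := by decide

theorem gram_E7 : ∀ i j : Fin 7,
    CartanMatrix.E₇ i j = if i = j then (2 : ℤ) else -(ent E7.dat.G i j : ℤ) := by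
  intro i j; fin_cases i <;> fin_cases j <;> rfl

end Pool.Agent.Helper10.Fam
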